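import Pool.Agent.H70.OQ.Targets

set_option autoImplicit false

namespace Pool.Agent.H30.OQ.ERR

open Finset Filter Pool.Agent.H70.OQ

/-- powers are eventually below exponentials -/
theorem ev (c k : ℕ) : ∀ᶠ n : ℕ in atTop, c * n ^ k ≤ 2 ^ n := by
  have h := tendsto_pow_const_div_const_pow_of_one_lt k (r := (2 : ℝ)) (by norm_num)
  have h2 : ∀ᶠ n : ℕ in atTop, ((n : ℝ) ^ k / 2 ^ n) < 1 / (c + 1) :=
    h.eventually (gt_mem_nhds (by positivity))
  filter_upwards [h2] with n hn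
  have h3 : (0 : ℝ) < 2 ^ n := by positivity
  have h4 : (0 : ℝ) < c + 1 := by positivity
  rw [div_lt_div_iff₀ h3 h4] at hn
  have h5 : ((c * n ^ k : ℕ) : ℝ) ≤ ((2 ^ n : ℕ) : ℝ) := by
    push_cast
    have h6 : (0 : ℝ) ≤ (n : ℝ) ^ k := by positivity
    nlinarith
  exact_mod_cast h5

theorem part3 (d n w ρ : ℕ) (hw : 0 < w)
    (h : 64 * w * (2 * ρ + 2 + d + 2 ^ (d + 1) * n) ≤ 2 ^ n) :
    ∑ i ∈ range d, (Fintype.card (Node (Fin n → Bool) (Ys n) i) : ℝ) ^ 2 *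
      (1 - 1 / (64 * (w : ℝ))) ^ (2 ^ n) ≤ (1 / 4) * (1 / 4 ^ ρ) := by
  set M : ℕ := 2 * ρ + 2 + d + 2 ^ (d + 1) * n with hM
  have hwR : (0 : ℝ) < w := by exact_mod_cast hw
  have hw1 : (1 : ℝ) ≤ w := by exact_mod_cast hw
  have hq0 : (0 : ℝ) ≤ 1 - 1 / (64 * (w : ℝ)) := by
    have : 1 / (64 * (w : ℝ)) ≤ 1 := by
      rw [div_le_one (by positivity)]
      linarith
    linarith
  have hexp : (1 - 1 / (64 * (w : ℝ))) ^ (2 ^ n) ≤ (1 / 2) ^ M := by
    have h1 : 1 - 1 / (64 * (w : ℝ)) ≤ Real.exp (-(1 / (64 * (w : ℝ)))) :=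
      Real.one_sub_le_exp_neg _
    have h2 : (1 - 1 / (64 * (w : ℝ))) ^ (2 ^ n) ≤ Real.exp (-(1 / (64 * (w : ℝ)))) ^ (2 ^ n) :=
      pow_le_pow_left₀ hq0 h1 _
    have h3 : Real.exp (-(1 / (64 * (w : ℝ)))) ^ (2 ^ n) ≤ Real.exp (-(M : ℝ)) := by
      rw [← Real.exp_nat_mul]
      apply Real.exp_le_exp.mpr
      push_cast
      have h4 : (64 * (w : ℝ) * M) ≤ 2 ^ n := by exact_mod_cast h
      have h5 : (M : ℝ) ≤ 2 ^ n * (1 / (64 * (w : ℝ))) := by
        rw [mul_one_div, le_div_iff₀ (by positivity)]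
        linarith
      linarith
    have h6 : Real.exp (-(M : ℝ)) ≤ (1 / 2) ^ M := by
      have h7 : Real.exp (-(M : ℝ)) = (Real.exp (-1)) ^ M := by
        rw [← Real.exp_nat_mul]
        congr 1
        ring
      rw [h7]
      apply pow_le_pow_left₀ (Real.exp_pos _).le
      rw [Real.exp_neg, one_div]
      apply inv_anti₀ (by norm_num)
      have := Real.add_one_le_exp (1 : ℝ)
      linarith
    exact h2.trans (h3.trans h6)
  have hcard : ∀ i ∈ range d, (Fintype.card (Node (Fin n → Bool) (Ys n) i) : ℝ) ^ 2 *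
      (1 - 1 / (64 * (w : ℝ))) ^ (2 ^ n) ≤ 2 ^ (2 ^ (d + 1) * n) * (1 / 2) ^ M := by
    intro i hi
    have hid : i < d := mem_range.mp hi
    have hc : (Fintype.card (Node (Fin n → Bool) (Ys n) i) : ℝ) ^ 2 ≤
        2 ^ (2 ^ (d + 1) * n) := by
      have h1 := card_Nn n i
      have h2 : (Fintype.card (Node (Fin n → Bool) (Ys n) i)) ^ 2 ≤ 2 ^ (2 ^ (d + 1) * n) := by
        have h1' : Fintype.card (Node (Fin n → Bool) (Ys n) i) = 2 ^ ((2 ^ (i + 1) - 1) * n) := h1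
        rw [h1', ← pow_mul]
        apply Nat.pow_le_pow_right (by norm_num)
        have h3 : 2 ^ (i + 1) ≤ 2 ^ d := Nat.pow_le_pow_right (by norm_num) hid
        calc (2 ^ (i + 1) - 1) * n * 2 ≤ 2 ^ d * n * 2 := by
              apply Nat.mul_le_mul_right
              apply Nat.mul_le_mul_right
              exact (Nat.sub_le _ _).trans h3
          _ = 2 ^ (d + 1) * n := by ring
      exact_mod_cast h2
    exact mul_le_mul hc hexp (pow_nonneg hq0 _) (by positivity)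
  refine (Finset.sum_le_sum hcard).trans ?_
  rw [Finset.sum_const, card_range, nsmul_eq_mul]
  have hd : (d : ℝ) ≤ 2 ^ d := by exact_mod_cast (Nat.lt_two_pow_self (n := d)).le
  have h8 : (2 : ℝ) ^ (2 ^ (d + 1) * n) * (1 / 2) ^ M = 1 / 2 ^ (2 * ρ + 2 + d) := by
    rw [hM, one_div_pow, pow_add 2 (2 * ρ + 2 + d)]
    field_simp
  rw [h8]
  calc (d : ℝ) * (1 / 2 ^ (2 * ρ + 2 + d)) ≤ 2 ^ d * (1 / 2 ^ (2 * ρ + 2 + d)) := by
        apply mul_le_mul_of_nonneg_right hd; positivity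
    _ = (1 / 4) * (1 / 4 ^ ρ) := by
        have h4 : (4 : ℝ) ^ ρ = 2 ^ (2 * ρ) := by
          rw [pow_mul]; norm_num
        rw [h4, pow_add, pow_add]
        field_simp
        norm_num

theorem err : T_ERR := by
  intro B d
  filter_upwards [ev (64 * (4 + d + 2 ^ (d + 1))) (2 * B + 1), ev 1 B,
    eventually_ge_atTop 1] with n h1 h2 hn1 t w ρ ht hw hρ hwρ
  have hw0 : 0 < w := by omega
  have hwR : (0 : ℝ) < w := by exact_mod_cast hw0
  unfold errT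
  rw [Finset.sum_add_distrib]
  -- part 1
  have p1 : 2 / (1 / (64 * (w : ℝ))) * (5 / 2 ^ (w + 1)) ≤ (1 / 4) * (1 / 4 ^ ρ) := by
    have e1 : 1280 * w * 4 ^ ρ ≤ 2 ^ w := by
      have a1 : w ≤ 2 ^ n := hw.trans (by simpa using h2)
      have a2 : (4 : ℕ) ^ ρ = 2 ^ (2 * ρ) := by
        rw [pow_mul]; norm_num
      calc 1280 * w * 4 ^ ρ ≤ 2 ^ 11 * 2 ^ n * 2 ^ (2 * ρ) := by
            rw [a2]
            apply Nat.mul_le_mul_right
            exact Nat.mul_le_mul (by norm_num) a1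
        _ = 2 ^ (11 + n + 2 * ρ) := by rw [pow_add, pow_add]
        _ ≤ 2 ^ w := Nat.pow_le_pow_right (by norm_num) (by omega)
    have e2 : (1280 * (w : ℝ) * 4 ^ ρ) ≤ 2 ^ w := by exact_mod_cast e1
    have e3 : 2 / (1 / (64 * (w : ℝ))) * (5 / 2 ^ (w + 1)) = 320 * w / 2 ^ w := by
      rw [pow_succ]
      field_simp
      ring
    rw [e3]
    have e4 : (1 / 4 : ℝ) * (1 / 4 ^ ρ) = 1 / (4 * 4 ^ ρ) := by
      rw [one_div_mul_one_div]
    rw [e4, div_le_div_iff₀ (by positivity) (by positivity)]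
    linarith
  have p2 : ∑ i ∈ range d, ((((2 ^ t : ℕ) : ℝ) + 1) ^ (i + 1) * (5 / 2 ^ (w + 1))) ≤
      (1 / 4) * (1 / 4 ^ ρ) := by
    have b1 : ∀ i ∈ range d, ((((2 ^ t : ℕ) : ℝ) + 1) ^ (i + 1) * (5 / 2 ^ (w + 1))) ≤
        2 ^ ((t + 1) * d) * (5 / 2 ^ (w + 1)) := by
      intro i hi
      have hid : i < d := mem_range.mp hi
      apply mul_le_mul_of_nonneg_right _ (by positivity)
      have c1 : (((2 ^ t : ℕ) : ℝ) + 1) ≤ 2 ^ (t + 1) := by
        push_cast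
        have : (1 : ℝ) ≤ 2 ^ t := one_le_pow₀ (by norm_num)
        rw [pow_succ]
        linarith
      calc (((2 ^ t : ℕ) : ℝ) + 1) ^ (i + 1) ≤ (2 ^ (t + 1)) ^ (i + 1) :=
            pow_le_pow_left₀ (by positivity) c1 _
        _ = 2 ^ ((t + 1) * (i + 1)) := by rw [pow_mul]
        _ ≤ 2 ^ ((t + 1) * d) := by
            apply pow_le_pow_right₀ (by norm_num)
            exact Nat.mul_le_mul_left _ hid
    refine (Finset.sum_le_sum b1).trans ?_
    rw [Finset.sum_const, card_range, nsmul_eq_mul]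
    have e1 : 20 * d * 2 ^ ((t + 1) * d) * 4 ^ ρ ≤ 2 ^ (w + 1) := by
      have a1 : d ≤ 2 ^ d := (Nat.lt_two_pow_self (n := d)).le
      have a2 : (4 : ℕ) ^ ρ = 2 ^ (2 * ρ) := by
        rw [pow_mul]; norm_num
      have a3 : (t + 1) * (d + 2) = (t + 1) * d + 2 * (t + 1) := by ring
      calc 20 * d * 2 ^ ((t + 1) * d) * 4 ^ ρ ≤ 2 ^ 5 * 2 ^ d * 2 ^ ((t + 1) * d) * 2 ^ (2 * ρ) := by
            rw [a2]
            apply Nat.mul_le_mul_right
            apply Nat.mul_le_mul_right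
            exact Nat.mul_le_mul (by norm_num) a1
        _ = 2 ^ (5 + d + (t + 1) * d + 2 * ρ) := by rw [pow_add, pow_add, pow_add]
        _ ≤ 2 ^ (w + 1) := Nat.pow_le_pow_right (by norm_num) (by omega)
    have e2 : (20 * (d : ℝ) * 2 ^ ((t + 1) * d) * 4 ^ ρ) ≤ 2 ^ (w + 1) := by exact_mod_cast e1
    have e4 : (1 / 4 : ℝ) * (1 / 4 ^ ρ) = 1 / (4 * 4 ^ ρ) := by
      rw [one_div_mul_one_div]
    have e5 : (d : ℝ) * (2 ^ ((t + 1) * d) * (5 / 2 ^ (w + 1))) =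
        5 * d * 2 ^ ((t + 1) * d) / 2 ^ (w + 1) := by ring
    rw [e4, e5, div_le_div_iff₀ (by positivity) (by positivity)]
    linarith
  have p3 := part3 d n w ρ hw0 (by
    have a1 : 2 * ρ + 2 + d + 2 ^ (d + 1) * n ≤ (4 + d + 2 ^ (d + 1)) * n ^ (B + 1) := by
      have b1 : n ^ B ≤ n ^ (B + 1) := Nat.pow_le_pow_right hn1 (by omega)
      have b2 : 1 ≤ n ^ (B + 1) := Nat.one_le_pow _ _ hn1
      have b3 : n ≤ n ^ (B + 1) := by
        calc n = n ^ 1 := (pow_one n).symm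
          _ ≤ n ^ (B + 1) := Nat.pow_le_pow_right hn1 (by omega)
      have b4 : 2 ^ (d + 1) * n ≤ 2 ^ (d + 1) * n ^ (B + 1) := Nat.mul_le_mul_left _ b3
      have b5 : d ≤ d * n ^ (B + 1) := Nat.le_mul_of_pos_right _ b2
      calc 2 * ρ + 2 + d + 2 ^ (d + 1) * n ≤ 2 * n ^ (B + 1) + 2 * n ^ (B + 1) +
            d * n ^ (B + 1) + 2 ^ (d + 1) * n ^ (B + 1) := by omega
        _ = _ := by ring
    calc 64 * w * (2 * ρ + 2 + d + 2 ^ (d + 1) * n) ≤
          64 * n ^ B * ((4 + d + 2 ^ (d + 1)) * n ^ (B + 1)) :=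
          Nat.mul_le_mul (Nat.mul_le_mul_left _ hw) a1
      _ = 64 * (4 + d + 2 ^ (d + 1)) * n ^ (2 * B + 1) := by
          have : n ^ (2 * B + 1) = n ^ B * n ^ (B + 1) := by
            rw [← pow_add]; congr 1; ring
          rw [this]; ring
      _ ≤ 2 ^ n := h1)
  have hpos : (0 : ℝ) < 1 / 4 ^ ρ := by positivity
  linarith

end Pool.Agent.H30.OQ.ERR
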