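import Pool.Agent.H70.OQ.Targets

set_option autoImplicit false

namespace Pool.Agent.H30.OQ.PMG

open Finset Filter Pool.Agent.H70.OQ

/-- powers are eventually below exponentials -/
theorem ev (k : ℕ) : ∀ᶠ n : ℕ in atTop, n ^ k ≤ 2 ^ n := by
  have h := tendsto_pow_const_div_const_pow_of_one_lt k (r := (2 : ℝ)) (by norm_num)
  have h2 : ∀ᶠ n : ℕ in atTop, ((n : ℝ) ^ k / 2 ^ n) < 1 :=
    h.eventually (gt_mem_nhds (by positivity))
  filter_upwards [h2] with n hn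
  have h3 : (0 : ℝ) < 2 ^ n := by positivity
  rw [div_lt_one h3] at hn
  exact_mod_cast hn.le

/-- polynomially bounded -/
def PB (b : ℕ) (f : ℕ → ℕ → ℕ → ℕ) : Prop :=
  ∃ B : ℕ, ∀ᶠ n : ℕ in atTop, ∀ t R : ℕ, 1 ≤ t → t ≤ n ^ b → R ≤ n ^ b → f n t R ≤ n ^ B

theorem pb_const (b c : ℕ) : PB b (fun _ _ _ => c) := by
  refine ⟨1, ?_⟩
  filter_upwards [eventually_ge_atTop c] with n hn t R _ _ _
  simpa using hn

theorem pb_n (b : ℕ) : PB b (fun n _ _ => n) :=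
  ⟨1, Eventually.of_forall fun n t R _ _ _ => by simp⟩

theorem pb_t (b : ℕ) : PB b (fun _ t _ => t) :=
  ⟨b, Eventually.of_forall fun n t R _ h _ => h⟩

theorem pb_R (b : ℕ) : PB b (fun _ _ R => R) :=
  ⟨b, Eventually.of_forall fun n t R _ _ h => h⟩

theorem pb_add {b : ℕ} {f g : ℕ → ℕ → ℕ → ℕ} (hf : PB b f) (hg : PB b g) :
    PB b (fun n t R => f n t R + g n t R) := by
  obtain ⟨B1, h1⟩ := hf
  obtain ⟨B2, h2⟩ := hg
  refine ⟨max B1 B2 + 1, ?_⟩
  filter_upwards [h1, h2, eventually_ge_atTop 2] with n h1 h2 hn t R a1 a2 a3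
  have e1 := h1 t R a1 a2 a3
  have e2 := h2 t R a1 a2 a3
  have e3 : n ^ B1 ≤ n ^ (max B1 B2) := Nat.pow_le_pow_right (by omega) (le_max_left _ _)
  have e4 : n ^ B2 ≤ n ^ (max B1 B2) := Nat.pow_le_pow_right (by omega) (le_max_right _ _)
  calc f n t R + g n t R ≤ n ^ (max B1 B2) + n ^ (max B1 B2) :=
        add_le_add (e1.trans e3) (e2.trans e4)
    _ = n ^ (max B1 B2) * 2 := by ring
    _ ≤ n ^ (max B1 B2) * n := Nat.mul_le_mul_left _ hn
    _ = _ := by rw [pow_succ]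

theorem pb_mul {b : ℕ} {f g : ℕ → ℕ → ℕ → ℕ} (hf : PB b f) (hg : PB b g) :
    PB b (fun n t R => f n t R * g n t R) := by
  obtain ⟨B1, h1⟩ := hf
  obtain ⟨B2, h2⟩ := hg
  refine ⟨B1 + B2, ?_⟩
  filter_upwards [h1, h2] with n h1 h2 t R a1 a2 a3
  rw [pow_add]
  exact Nat.mul_le_mul (h1 t R a1 a2 a3) (h2 t R a1 a2 a3)

theorem pb_pow {b : ℕ} {f : ℕ → ℕ → ℕ → ℕ} (hf : PB b f) (m : ℕ) :
    PB b (fun n t R => f n t R ^ m) := by
  obtain ⟨B1, h1⟩ := hf
  refine ⟨B1 * m, ?_⟩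
  filter_upwards [h1] with n h1 t R a1 a2 a3
  rw [pow_mul]
  exact Nat.pow_le_pow_left (h1 t R a1 a2 a3) m

theorem pb_sum {b : ℕ} (f : ℕ → ℕ → ℕ → ℕ → ℕ) (hf : ∀ j, PB b (f j)) (a : ℕ) :
    PB b (fun n t R => ∑ j ∈ range a, f j n t R) := by
  induction a with
  | zero => simpa using pb_const b 0
  | succ a ih =>
    have := pb_add ih (hf a)
    simpa only [Finset.sum_range_succ] using this

/-- the exponents, downwards -/
def rr (n R : ℕ) : ℕ → ℕ
  | 0 => R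
  | i + 1 => (n + 1) * (rr n R i + n)

theorem rr_ge (n R i : ℕ) : R ≤ rr n R i := by
  induction i with
  | zero => exact le_rfl
  | succ i ih =>
    have h1 : rr n R (i + 1) = (n + 1) * (rr n R i + n) := rfl
    rw [h1]
    nlinarith [Nat.zero_le n, Nat.zero_le (rr n R i)]

theorem pb_rr (b i : ℕ) : PB b (fun n _ R => rr n R i) := by
  induction i with
  | zero => exact pb_R b
  | succ i ih => exact pb_mul (pb_add (pb_n b) (pb_const b 1)) (pb_add ih (pb_n b))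

/-- r_j -/
def rj (a n R j : ℕ) : ℕ := rr n R (a - j - 1) + n

/-- w_j from k_j -/
def wf (a d n t R j k : ℕ) : ℕ := 2 * rj a n R j + (n + 1) + (t * k + 3) * (d + 2) + 2

/-- w_0 of the tables -/
def w00 (a d n t R : ℕ) : ℕ := 2 * rr n R a + (t + 1) * (d + 2) + 10 * n + 10 * d + 20 + t

/-- k_j -/
def kk (a d n t R : ℕ) : ℕ → ℕ
  | 0 => 128 * (w00 a d n t R) ^ 2
  | j + 1 => 2 * (wf a d n t R j (kk a d n t R j) + (2 * wf a d n t R j (kk a d n t R j) + 1) *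
      (4 * kk a d n t R j + rj a n R j)) * (128 * wf a d n t R j (kk a d n t R j)) ^ (d + 2)

theorem pb_rj (a b j : ℕ) : PB b (fun n _ R => rj a n R j) := pb_add (pb_rr b _) (pb_n b)

theorem pb_wf (a d b j : ℕ) {f : ℕ → ℕ → ℕ → ℕ} (hf : PB b f) :
    PB b (fun n t R => wf a d n t R j (f n t R)) :=
  pb_add (pb_add (pb_add (pb_mul (pb_const b 2) (pb_rj a b j)) (pb_add (pb_n b) (pb_const b 1)))
    (pb_mul (pb_add (pb_mul (pb_t b) hf) (pb_const b 3)) (pb_const b (d + 2)))) (pb_const b 2)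

theorem pb_w00 (a d b : ℕ) : PB b (fun n t R => w00 a d n t R) :=
  pb_add (pb_add (pb_add (pb_add (pb_add (pb_mul (pb_const b 2) (pb_rr b a))
    (pb_mul (pb_add (pb_t b) (pb_const b 1)) (pb_const b (d + 2))))
    (pb_mul (pb_const b 10) (pb_n b))) (pb_const b (10 * d))) (pb_const b 20)) (pb_t b)

theorem pb_kk (a d b j : ℕ) : PB b (fun n t R => kk a d n t R j) := by
  induction j with
  | zero => exact pb_mul (pb_const b 128) (pb_pow (pb_w00 a d b) 2)
  | succ j ih =>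
    have hw := pb_wf a d b j ih
    exact pb_mul (pb_mul (pb_const b 2) (pb_add hw (pb_mul (pb_add (pb_mul (pb_const b 2) hw)
      (pb_const b 1)) (pb_add (pb_mul (pb_const b 4) ih) (pb_rj a b j)))))
      (pb_pow (pb_mul (pb_const b 128) hw) (d + 2))

theorem w00_pos (a d n t R : ℕ) : 1 ≤ w00 a d n t R := by unfold w00; omega

theorem wf_pos (a d n t R j k : ℕ) : 1 ≤ wf a d n t R j k := by unfold wf; omega

theorem kk_pos (a d n t R j : ℕ) : 1 ≤ kk a d n t R j := by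
  cases j with
  | zero =>
    have h := w00_pos a d n t R
    change 1 ≤ 128 * (w00 a d n t R) ^ 2
    have : 1 ≤ (w00 a d n t R) ^ 2 := Nat.one_le_pow _ _ h
    omega
  | succ j =>
    have h := wf_pos a d n t R j (kk a d n t R j)
    change 1 ≤ 2 * (wf a d n t R j (kk a d n t R j) + (2 * wf a d n t R j (kk a d n t R j) + 1) *
      (4 * kk a d n t R j + rj a n R j)) * (128 * wf a d n t R j (kk a d n t R j)) ^ (d + 2)
    have h1 : 1 ≤ (128 * wf a d n t R j (kk a d n t R j)) ^ (d + 2) :=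
      Nat.one_le_pow _ _ (by omega)
    have h2 : 1 ≤ 2 * (wf a d n t R j (kk a d n t R j) + (2 * wf a d n t R j (kk a d n t R j) + 1) *
      (4 * kk a d n t R j + rj a n R j)) := by omega
    exact Nat.mul_le_mul h2 h1

theorem step (a d n t R j : ℕ) (ht : 1 ≤ t) (hj : j < a)
    (hbig : 6 * (128 * wf a d n t R j (kk a d n t R j)) ^ (d + 2) ≤ 4 ^ n) :
    2 / qw (wf a d n t R j (kk a d n t R j)) ^ (d + 2) * ((((2 ^ n : ℕ) : ℝ) + 1) *
      (((2 ^ t : ℕ) : ℝ) + 2 ^ (t * kk a d n t R j) + 1) ^ (d + 2) *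
      2 / 2 ^ (wf a d n t R j (kk a d n t R j)) + 1 / 4 ^ (rj a n R j) +
      ((2 ^ n : ℕ) : ℝ) ^ (rj a n R j) * (1 / 4 ^ rr n R (a - j))) ≤ 1 / 4 ^ rr n R (a - (j + 1)) := by
  have hk := kk_pos a d n t R j
  have hw := wf_pos a d n t R j (kk a d n t R j)
  set k := kk a d n t R j with hkdef
  set w := wf a d n t R j k with hwdef
  set r := rj a n R j with hrdef
  have hwR : (0 : ℝ) < w := by exact_mod_cast hw
  have hrr : rr n R (a - j) = (n + 1) * r := by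
    have : a - j = (a - j - 1) + 1 := by omega
    rw [this]
    rfl
  have hr2 : r = rr n R (a - (j + 1)) + n := by
    rw [hrdef]; unfold rj
    rw [Nat.sub_sub]
  have t1 : (((2 ^ n : ℕ) : ℝ) + 1) * (((2 ^ t : ℕ) : ℝ) + 2 ^ (t * k) + 1) ^ (d + 2) * 2 / 2 ^ w ≤
      1 / 4 ^ r := by
    have b1 : (((2 ^ n : ℕ) : ℝ) + 1) ≤ 2 ^ (n + 1) := by
      push_cast
      have : (1 : ℝ) ≤ 2 ^ n := one_le_pow₀ (by norm_num)
      rw [pow_succ]
      linarith
    have b2 : (((2 ^ t : ℕ) : ℝ) + 2 ^ (t * k) + 1) ≤ 2 ^ (t * k + 2) := by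
      push_cast
      have c1 : (1 : ℝ) ≤ 2 ^ (t * k) := one_le_pow₀ (by norm_num)
      have c2 : (2 : ℝ) ^ t ≤ 2 ^ (t * k) :=
        pow_le_pow_right₀ (by norm_num) (Nat.le_mul_of_pos_right _ hk)
      rw [pow_add]
      linarith
    have b3 : (((2 ^ t : ℕ) : ℝ) + 2 ^ (t * k) + 1) ^ (d + 2) ≤ 2 ^ ((t * k + 2) * (d + 2)) := by
      have c3 : (2 : ℝ) ^ ((t * k + 2) * (d + 2)) = (2 ^ (t * k + 2)) ^ (d + 2) := pow_mul _ _ _
      rw [c3]
      exact pow_le_pow_left₀ (by positivity) b2 _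
    have b4 : (((2 ^ n : ℕ) : ℝ) + 1) * (((2 ^ t : ℕ) : ℝ) + 2 ^ (t * k) + 1) ^ (d + 2) * 2 ≤
        2 ^ (n + 2 + (t * k + 2) * (d + 2)) := by
      calc (((2 ^ n : ℕ) : ℝ) + 1) * (((2 ^ t : ℕ) : ℝ) + 2 ^ (t * k) + 1) ^ (d + 2) * 2
          ≤ 2 ^ (n + 1) * 2 ^ ((t * k + 2) * (d + 2)) * 2 := by
            apply mul_le_mul_of_nonneg_right _ (by norm_num)
            exact mul_le_mul b1 b3 (by positivity) (by positivity)
        _ = 2 ^ (n + 2 + (t * k + 2) * (d + 2)) := by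
            rw [pow_add 2 (n + 2), show n + 2 = n + 1 + 1 by ring, pow_succ 2 (n + 1)]
            ring
    have b5 : n + 2 + (t * k + 2) * (d + 2) + 2 * r ≤ w := by
      rw [hwdef]; unfold wf
      rw [← hrdef]
      have : (t * k + 3) * (d + 2) = (t * k + 2) * (d + 2) + (d + 2) := by ring
      rw [this]
      omega
    have h4 : (4 : ℝ) ^ r = 2 ^ (2 * r) := by
      rw [pow_mul]; norm_num
    rw [h4, div_le_div_iff₀ (by positivity) (by positivity), one_mul]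
    calc (((2 ^ n : ℕ) : ℝ) + 1) * (((2 ^ t : ℕ) : ℝ) + 2 ^ (t * k) + 1) ^ (d + 2) * 2 * 2 ^ (2 * r)
        ≤ 2 ^ (n + 2 + (t * k + 2) * (d + 2)) * 2 ^ (2 * r) :=
          mul_le_mul_of_nonneg_right b4 (by positivity)
      _ = 2 ^ (n + 2 + (t * k + 2) * (d + 2) + 2 * r) := by rw [← pow_add]
      _ ≤ 2 ^ w := pow_le_pow_right₀ (by norm_num) b5
  have t2 : ((2 ^ n : ℕ) : ℝ) ^ r * (1 / 4 ^ rr n R (a - j)) ≤ 1 / 4 ^ r := by
    rw [hrr, mul_one_div, div_le_div_iff₀ (by positivity) (by positivity), one_mul]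
    push_cast
    have h4 : (4 : ℝ) ^ ((n + 1) * r) = 2 ^ (n * r) * (2 ^ (n * r) * 4 ^ r) := by
      have : (4 : ℝ) ^ ((n + 1) * r) = 4 ^ (n * r) * 4 ^ r := by
        rw [← pow_add]; congr 1; ring
      rw [this, show (4 : ℝ) ^ (n * r) = 2 ^ (n * r) * 2 ^ (n * r) by
        rw [← mul_pow]; norm_num]
      ring
    rw [h4, ← pow_mul]
    have : (1 : ℝ) ≤ 2 ^ (n * r) := one_le_pow₀ (by norm_num)
    have h5 : (0 : ℝ) < 2 ^ (n * r) := by positivity
    have h6 : (0 : ℝ) < 4 ^ r := by positivity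
    have h7 : (4 : ℝ) ^ r ≤ 2 ^ (n * r) * 4 ^ r := by nlinarith
    exact mul_le_mul_of_nonneg_left h7 h5.le
  have hq : 2 / qw w ^ (d + 2) = 2 * (128 * (w : ℝ)) ^ (d + 2) := by
    unfold qw
    rw [one_div, inv_pow, div_inv_eq_mul]
  rw [hq]
  have hsum : (((2 ^ n : ℕ) : ℝ) + 1) * (((2 ^ t : ℕ) : ℝ) + 2 ^ (t * k) + 1) ^ (d + 2) * 2 / 2 ^ w +
      1 / 4 ^ r + ((2 ^ n : ℕ) : ℝ) ^ r * (1 / 4 ^ rr n R (a - j)) ≤ 3 * (1 / 4 ^ r) := by
    linarith
  have hb : (6 * (128 * (w : ℝ)) ^ (d + 2)) ≤ 4 ^ n := by exact_mod_cast hbig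
  calc 2 * (128 * (w : ℝ)) ^ (d + 2) * ((((2 ^ n : ℕ) : ℝ) + 1) *
        (((2 ^ t : ℕ) : ℝ) + 2 ^ (t * k) + 1) ^ (d + 2) * 2 / 2 ^ w +
        1 / 4 ^ r + ((2 ^ n : ℕ) : ℝ) ^ r * (1 / 4 ^ rr n R (a - j)))
      ≤ 2 * (128 * (w : ℝ)) ^ (d + 2) * (3 * (1 / 4 ^ r)) :=
        mul_le_mul_of_nonneg_left hsum (by positivity)
    _ = (6 * (128 * (w : ℝ)) ^ (d + 2)) * (1 / 4 ^ r) := by ring
    _ ≤ 4 ^ n * (1 / 4 ^ r) := mul_le_mul_of_nonneg_right hb (by positivity)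
    _ = 1 / 4 ^ rr n R (a - (j + 1)) := by
        rw [hr2, pow_add]
        field_simp

theorem pmg : T_PMG := by
  intro a d b
  have hP : PB b (fun n t R => (∑ j ∈ range a, kk a d n t R j) + w00 a d n t R + rr n R a) :=
    pb_add (pb_add (pb_sum (fun j n t R => kk a d n t R j) (fun j => pb_kk a d b j) a)
      (pb_w00 a d b)) (pb_rr b a)
  have hQ : PB b (fun n t R => ∑ j ∈ range a,
      6 * (128 * wf a d n t R j (kk a d n t R j)) ^ (d + 2)) :=
    pb_sum (fun j n t R => 6 * (128 * wf a d n t R j (kk a d n t R j)) ^ (d + 2))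
      (fun j => pb_mul (pb_const b 6) (pb_pow (pb_mul (pb_const b 128)
        (pb_wf a d b j (pb_kk a d b j))) (d + 2))) a
  obtain ⟨B, hB⟩ := hP
  obtain ⟨B', hB'⟩ := hQ
  refine ⟨B, ?_⟩
  filter_upwards [hB, hB', ev B'] with n h1 h2 h3 t R ht ht' hR
  have e1 := h1 t R ht ht' hR
  have e2 := (h2 t R ht ht' hR).trans h3
  refine ⟨kk a d n t R 0, w00 a d n t R, rr n R a,
    fun j => wf a d n t R j (kk a d n t R j), fun j => rj a n R j, kk a d n t R,
    fun j => 1 / 4 ^ rr n R (a - j), ?_, w00_pos a d n t R, ?_, rfl, rfl, ?_, ?_, ?_, ?_, ?_, ?_⟩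
  · unfold w00; omega
  · omega
  · simp
  · omega
  · unfold w00; omega
  · refine ⟨ht, fun j => kk_pos a d n t R j, fun j => wf_pos a d n t R j _,
      fun j => by positivity, ?_, ?_⟩
    · intro j hj
      have hw := wf_pos a d n t R j (kk a d n t R j)
      have hk1 : kk a d n t R (j + 1) = 2 * (wf a d n t R j (kk a d n t R j) +
        (2 * wf a d n t R j (kk a d n t R j) + 1) *
        (4 * kk a d n t R j + rj a n R j)) * (128 * wf a d n t R j (kk a d n t R j)) ^ (d + 2) := rfl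
      rw [hk1]
      have hwR : (0 : ℝ) < (wf a d n t R j (kk a d n t R j) : ℝ) := by exact_mod_cast hw
      unfold qw
      push_cast
      rw [one_div, inv_pow]
      apply le_of_eq
      field_simp
    · intro j hj
      refine step a d n t R j ht hj ?_
      have e3 : 6 * (128 * wf a d n t R j (kk a d n t R j)) ^ (d + 2) ≤ ∑ j ∈ range a,
          6 * (128 * wf a d n t R j (kk a d n t R j)) ^ (d + 2) :=
        Finset.single_le_sum (f := fun j => 6 * (128 * wf a d n t R j (kk a d n t R j)) ^ (d + 2))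
          (fun i _ => Nat.zero_le _) (mem_range.mpr hj)
      refine e3.trans (e2.trans ?_)
      exact Nat.pow_le_pow_left (by norm_num) n
  · intro j _
    simp only
    apply one_div_le_one_div_of_le (by positivity)
    exact pow_le_pow_right₀ (by norm_num) (rr_ge n R _)
  · intro j hj
    have e3 : kk a d n t R j ≤ ∑ j ∈ range a, kk a d n t R j :=
      Finset.single_le_sum (f := fun j => kk a d n t R j) (fun i _ => Nat.zero_le _)
        (mem_range.mpr hj)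
    omega

end Pool.Agent.H30.OQ.PMG
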